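import Pool.Agent.MQG.StmtsA

/-!
# Squad MQG, row BCO: slices of `W` and `Wt`
-/

set_option autoImplicit false

namespace Pool.Agent.MQG.H13

open Pool.Agent.MQG
open scoped InnerProductSpace InnerProduct Topology ComplexConjugate
open Complex Filter

theorem bco (com : ComStmt) : BcoStmt := by
  intro ι M f g hf hg
  have hV := M.V_group
  have hG : IsGroup fun t => tens (cj (M.V t)) (M.V t) := hV.cj.tens hV
  have hT : ∀ (t : ℝ) (ξ : L2 (ι × ι)), M.Wt ((fun t => tens (cj (M.V t)) (M.V t)) t ξ) =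
      (fun t => tens (cj (M.V t)) (M.V t)) t (M.Wt ξ) := by
    intro t ξ
    exact DFunLike.congr_fun (com ι M t).1 ξ
  refine Total.ext_op (total_traj hV 0) (total_traj hV 0) ?_
  rintro _ ⟨p, hp, rfl⟩ _ ⟨q, hq, rfl⟩
  rw [inner_co, inner_co, M.manageable (f 0) (g 0) p q hp hq]
  have h1 : Traj (fun t => tens (cj (M.V t)) (M.V t))
      fun w => tn (star (g (conj w))) (p (w + -(I / 2))) := hg.cj.tn (hp.shift hV (-(I / 2)))
  have h2 : Traj (fun t => tens (cj (M.V t)) (M.V t))
      fun w => tn (star (f (conj w))) (q (w + I / 2)) := hf.cj.tn (hq.shift hV (I / 2))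
  have h3 := Traj.inner_const hG hT h1 h2 (-(I / 2))
  have e1 : conj (-(I / 2)) = I / 2 := by
    rw [map_neg, map_div₀, conj_I, Complex.conj_ofNat]
    ring
  have e2 : conj (I / 2) = -(I / 2) := by
    rw [map_div₀, conj_I, Complex.conj_ofNat]
    ring
  simp only [e1, e2, map_zero, add_neg_cancel, neg_add_cancel, zero_add] at h3
  exact h3.symm

end Pool.Agent.MQG.H13
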