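import Pool.Agent.MQG.StmtsH
import Pool.Agent.MQG.AsmQ
import Pool.Agent.Helper59_MQG.LNO

/-!
# Squad MQG, rows HAG and HEQ: transfer of the Haagerup property
-/

set_option autoImplicit false

namespace Pool.Agent.MQG.H13

open Pool.Agent.MQG
open scoped InnerProductSpace InnerProduct Topology ComplexConjugate
open Complex Filter

theorem exists_Balg_ne {ι : Type} [Nonempty ι] (M : MU ι) : ∃ b ∈ Balg M.W, b ≠ 0 := by
  classical
  by_contra h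
  push Not at h
  have h1 := dense_Balg (W := M.W) M.W_unitary
  have h2 : Submodule.span ℂ {w : L2 ι | ∃ b ∈ Balg M.W, ∃ v, w = b v} = ⊥ := by
    rw [Submodule.span_eq_bot]
    rintro w ⟨b, hb, v, rfl⟩
    rw [h b hb]
    rfl
  rw [h2] at h1
  obtain ⟨i₀⟩ := ‹Nonempty ι›
  have h3 : (lp.single 2 i₀ (1 : ℂ) : L2 ι) ∈ closure ((⊥ : Submodule ℂ (L2 ι)) : Set (L2 ι)) :=
    h1 _
  rw [Submodule.bot_coe, closure_singleton, Set.mem_singleton_iff] at h3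
  have h4 := lp.norm_single (E := fun _ : ι => ℂ) (p := 2) (by norm_num) i₀ (1 : ℂ)
  rw [h3, norm_zero, norm_one] at h4
  exact zero_ne_one h4

theorem hag (hlm : HlmStmt) (hbm : HbmStmt) : HagStmt := by
  intro ι _ M κ WW S T z hS hT hTs hρ hH
  obtain ⟨l, hl, h1, h2⟩ := hH
  choose! ρ hρ1 hρ2 hρ3 using hρ
  have hA := hlm ι M (Du WW) l S (fun μ => T (ρ μ)) z
    (h1.mono fun μ hμ => ⟨(hS μ).trans hμ.1.1.le, hρ3 μ hμ.1⟩) h2
  obtain ⟨b0, hb0, hb0'⟩ := exists_Balg_ne M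
  have hc : Tendsto (fun μ => ‖ρ μ‖) l (𝓝 1) := by
    have h3 : Tendsto (fun μ => ‖T (ρ μ) * b0‖ / ‖b0‖) l (𝓝 (‖b0‖ / ‖b0‖)) :=
      ((hA b0 hb0).1.norm).div_const _
    rw [div_self (norm_ne_zero_iff.2 hb0')] at h3
    refine tendsto_of_tendsto_of_tendsto_of_le_of_le' h3 tendsto_const_nhds ?_ ?_
    · refine Eventually.of_forall fun μ => ?_
      rw [div_le_iff₀ (norm_pos_iff.2 hb0')]
      exact (norm_mul_le _ _).trans (mul_le_mul_of_nonneg_right (hT _) (norm_nonneg _))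
    · exact h1.mono fun μ hμ => hρ1 μ hμ.1
  have hcc : Tendsto (fun μ => ((‖ρ μ‖ : ℝ) : ℂ)⁻¹) l (𝓝 1) := by
    have h3 : Tendsto (fun μ => ((‖ρ μ‖ : ℝ) : ℂ)) l (𝓝 ((1 : ℝ) : ℂ)) :=
      (Complex.continuous_ofReal.tendsto 1).comp hc
    rw [Complex.ofReal_one] at h3
    have h4 := h3.inv₀ one_ne_zero
    rwa [inv_one] at h4
  have hpos : ∀ᶠ μ in l, 0 < ‖ρ μ‖ := hc.eventually (lt_mem_nhds zero_lt_one)
  refine ⟨l.map fun μ => ((‖ρ μ‖ : ℝ) : ℂ)⁻¹ • ρ μ, hl.map _, ?_, ?_⟩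
  · rw [eventually_map]
    filter_upwards [h1, hpos] with μ hμ hp
    refine ⟨⟨?_, ?_⟩, ?_⟩
    · rw [norm_smul, norm_inv, Complex.norm_real, norm_norm, inv_mul_cancel₀ hp.ne']
    · intro a
      obtain ⟨r, hr, hr'⟩ := hρ2 μ hμ.1 a
      refine ⟨‖ρ μ‖⁻¹ * r, by positivity, ?_⟩
      change ((‖ρ μ‖ : ℝ) : ℂ)⁻¹ • (ρ μ (star a * a)) = _
      rw [hr', smul_eq_mul, Complex.ofReal_mul, Complex.ofReal_inv]
    · rw [hTs]
      exact Submodule.smul_mem (Balg M.W).toNonUnitalSubalgebra.toSubmodule _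
        (hbm ι M z (S μ) (T (ρ μ)) hμ.2 (hρ3 μ hμ.1))
  · intro b hb
    obtain ⟨h3, h4⟩ := hA b hb
    rw [tendsto_map'_iff, tendsto_map'_iff]
    constructor
    · have h5 := hcc.smul h3
      rw [one_smul] at h5
      refine h5.congr fun μ => ?_
      change _ = T (((‖ρ μ‖ : ℝ) : ℂ)⁻¹ • ρ μ) * b
      rw [hTs, smul_mul_assoc]
    · have h5 := hcc.smul h4
      rw [one_smul] at h5
      refine h5.congr fun μ => ?_
      change _ = b * T (((‖ρ μ‖ : ℝ) : ℂ)⁻¹ • ρ μ)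
      rw [hTs, mul_smul_comm]

theorem lam_smul {ι κ : Type} (U : Op (κ × ι)) (c : ℂ) (μ : Du U) :
    lam U (c • μ) = c • lam U μ := by
  refine ContinuousLinearMap.ext fun y => ext_inner_left ℂ fun u => ?_
  change _ = ⟪u, c • (lam U μ y)⟫_ℂ
  rw [inner_lam, inner_smul_right, inner_lam]
  rfl

theorem heq (hag : HagStmt) (hsm : HsmStmt) (hft : HftStmt) : HeqStmt := by
  intro ι _ M κ WW hU lamt hn hl
  have hV := M.V_group
  have hlam : ∀ μ : Du WW, ‖lam WW μ‖ ≤ ‖μ‖ := fun μ => H59.lno ι κ WW hU.adapted.unit μ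
  have hsl : ∀ (c : ℂ) (μ : Du WW), lamt (c • μ) = c • lamt μ := by
    intro c μ
    refine Total.ext_op (total_traj hV 0) (total_traj hV 0) ?_
    rintro _ ⟨f, hf, rfl⟩ _ ⟨g, hg, rfl⟩
    change _ = ⟪f 0, c • (lamt μ (g 0))⟫_ℂ
    rw [hl _ f g hf hg, lam_smul, inner_smul_right, hl _ f g hf hg]
    change ⟪f (I / 4), c • (lam WW μ (g (-(I / 4))))⟫_ℂ = _
    rw [inner_smul_right]
  constructor
  · refine hag ι M κ WW (lam WW) lamt (I / 4) hlam hn hsl ?_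
    intro μ hμ
    obtain ⟨ρ, h1, h2, h3⟩ := hsm ι M κ WW hU μ hμ
    exact ⟨ρ, h1, h2, (hft ι M.V hV (lam WW μ) (lamt μ) (lam WW ρ) (lamt ρ)
      (fun f g hf hg => hl μ f g hf hg) (fun f g hf hg => hl ρ f g hf hg) h3).1⟩
  · refine hag ι M κ WW lamt (lam WW) (-(I / 4)) hn hlam (fun c μ => lam_smul WW c μ) ?_
    intro μ hμ
    obtain ⟨ρ, h1, h2, h3⟩ := hsm ι M κ WW hU μ hμ
    exact ⟨ρ, h1, h2, (hft ι M.V hV (lam WW μ) (lamt μ) (lam WW ρ) (lamt ρ)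
      (fun f g hf hg => hl μ f g hf hg) (fun f g hf hg => hl ρ f g hf hg) h3).2⟩

end Pool.Agent.MQG.H13
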