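import Pool.Agent.MQG.StmtsB
import Pool.Agent.Helper79_MQG.SPA

/-!
# Squad MQG, row SPL: separability of `L1`
-/

set_option autoImplicit false

namespace Pool.Agent.MQG.H13

open Pool.Agent.MQG
open scoped InnerProductSpace InnerProduct Topology
open Complex Filter

variable {κ ι : Type}

/-- the functional of two vectors -/
noncomputable def vecF (WW : Op (κ × ι)) (Λ : Al WW →⋆ₙₐ[ℂ] Op ι) (x z : L2 ι) : Du WW :=
  LinearMap.mkContinuous
    { toFun := fun a => ⟪x, Λ a z⟫_ℂ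
      map_add' := fun a b => by
        rw [map_add, ContinuousLinearMap.add_apply, inner_add_right]
      map_smul' := fun c a => by
        rw [map_smul, ContinuousLinearMap.smul_apply, inner_smul_right, RingHom.id_apply,
          smul_eq_mul] } (‖x‖ * ‖z‖) fun a => by
    have h1 : ‖⟪x, Λ a z⟫_ℂ‖ ≤ ‖x‖ * ‖Λ a z‖ := norm_inner_le_norm _ _
    have h2 : ‖Λ a z‖ ≤ ‖Λ a‖ * ‖z‖ := (Λ a).le_opNorm z
    have h3 : ‖Λ a‖ ≤ ‖a‖ := NonUnitalStarAlgHom.norm_apply_le Λ a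
    calc ‖⟪x, Λ a z⟫_ℂ‖ ≤ ‖x‖ * ‖Λ a z‖ := h1
      _ ≤ ‖x‖ * (‖a‖ * ‖z‖) := mul_le_mul_of_nonneg_left
          (h2.trans (mul_le_mul_of_nonneg_right h3 (norm_nonneg _))) (norm_nonneg _)
      _ = ‖x‖ * ‖z‖ * ‖a‖ := by ring

theorem vecF_apply (WW : Op (κ × ι)) (Λ : Al WW →⋆ₙₐ[ℂ] Op ι) (x z : L2 ι) (a : Al WW) :
    vecF WW Λ x z a = ⟪x, Λ a z⟫_ℂ := rfl

theorem norm_vecF_le (WW : Op (κ × ι)) (Λ : Al WW →⋆ₙₐ[ℂ] Op ι) (x z : L2 ι) :
    ‖vecF WW Λ x z‖ ≤ ‖x‖ * ‖z‖ :=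
  LinearMap.mkContinuous_norm_le _ (by positivity) _

/-- the functionals of two vectors, as a bounded sesquilinear map -/
noncomputable def vecForm (WW : Op (κ × ι)) (Λ : Al WW →⋆ₙₐ[ℂ] Op ι) :
    L2 ι →L⋆[ℂ] L2 ι →L[ℂ] Du WW :=
  LinearMap.mkContinuous₂
    (LinearMap.mk₂'ₛₗ (starRingEnd ℂ) (RingHom.id ℂ) (fun x z => vecF WW Λ x z)
      (fun x x' z => by
        ext a
        rw [ContinuousLinearMap.add_apply, vecF_apply, vecF_apply, vecF_apply, inner_add_left])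
      (fun r x z => by
        ext a
        rw [ContinuousLinearMap.smul_apply, vecF_apply, vecF_apply, inner_smul_left, smul_eq_mul])
      (fun x z z' => by
        ext a
        rw [ContinuousLinearMap.add_apply, vecF_apply, vecF_apply, vecF_apply, map_add,
          inner_add_right])
      (fun r x z => by
        ext a
        rw [ContinuousLinearMap.smul_apply, vecF_apply, vecF_apply, map_smul, inner_smul_right,
          RingHom.id_apply, smul_eq_mul]))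
    1 (fun x z => by
      rw [one_mul]
      exact norm_vecF_le WW Λ x z)

theorem spl (dns : DnsStmt) : SplStmt := by
  intro ι _ M κ WW hU
  have hs := H79.sep_L2 ι
  have hW : Adapted M.W M.W := ⟨M.W_unitary, M.pentagon⟩
  obtain ⟨Λ, hΛ⟩ := hU.lift ι M.W hW
  have hc : Continuous fun q : L2 ι × L2 ι => vecForm WW Λ q.1 q.2 :=
    ((vecForm WW Λ).continuous.comp continuous_fst).clm_apply continuous_snd
  have h1 : TopologicalSpace.IsSeparable
      (Set.range fun q : L2 ι × L2 ι => vecForm WW Λ q.1 q.2) :=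
    TopologicalSpace.isSeparable_range hc
  have h2 : {ω : Du WW | ∃ Λ : Al WW →⋆ₙₐ[ℂ] Op ι,
      (∀ u y, Λ (asl WW u y) = sl M.W u y) ∧ ∃ x z, ∀ a, ω a = ⟪x, Λ a z⟫_ℂ} ⊆
      Set.range fun q : L2 ι × L2 ι => vecForm WW Λ q.1 q.2 := by
    rintro ω ⟨Λ', hΛ', x, z, hω⟩
    refine ⟨(x, z), ?_⟩
    show vecF WW Λ x z = ω
    refine ContinuousLinearMap.ext_on (dns ι M κ WW hU.adapted) ?_
    rintro _ ⟨u, y, rfl⟩
    rw [vecF_apply, hω, hΛ, hΛ']
  have h3 := ((h1.mono h2).span (R := ℂ)).closure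
  rw [← Submodule.topologicalClosure_coe] at h3
  exact h3

end Pool.Agent.MQG.H13
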